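import Pool.Agent.Work.MP_64ea0f_cs.InterfaceD

set_option autoImplicit false

/-! # Block GDO (helper4): degree one -/

namespace Pool.CS

namespace GDOaux

variable {Λ V F : Type} [AddCommGroup F] {G : SimpleGraph Λ}

open Classical in
/-- primitive on single cliques -/
noncomputable def gg (φ : V → List (Set Λ) → F) (I : Set Λ) (v : V) : F :=
  if I = ∅ then 0 else φ v [∅, I]

theorem gg_empty (φ : V → List (Set Λ) → F) (v : V) : gg φ ∅ v = 0 := if_pos rfl

theorem gg_ne (φ : V → List (Set Λ) → F) {I : Set Λ} (h : I ≠ ∅) (v : V) :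
    gg φ I v = φ v [∅, I] := if_neg h

open Classical in
/-- the cocycle -/
noncomputable def lam (L : LS G V) (A : Set Λ) (φ : V → List (Set Λ) → F) (s : Λ) (v : V) : F :=
  if s ∈ A then gg φ {s} (L.τ s v) - gg φ {s} v else 0

theorem lam_mem (L : LS G V) {A : Set Λ} (φ : V → List (Set Λ) → F) {s : Λ} (h : s ∈ A) (v : V) :
    lam L A φ s v = gg φ {s} (L.τ s v) - gg φ {s} v := if_pos h

theorem lam_not (L : LS G V) {A : Set Λ} (φ : V → List (Set Λ) → F) {s : Λ} (h : s ∉ A) (v : V) :
    lam L A φ s v = 0 := if_neg h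

theorem fl_two {A : Set Λ} {I J : Set Λ} (hI : G.IsClique I ∧ I ⊆ A) (hJ : G.IsClique J ∧ J ⊆ A)
    (h : I ⊂ J) : Fl G A [I, J] := by
  refine ⟨?_, ?_⟩
  · simpa using h
  · intro K hK
    simp only [List.mem_cons, List.not_mem_nil, or_false] at hK
    rcases hK with rfl | rfl
    · exact hI
    · exact hJ

/-- `φ v [I, J]` is the difference -/
theorem phi_eq {A : Set Λ} {φ : V → List (Set Λ) → F} (hc : Cocy G A 1 φ) (v : V) {I J : Set Λ}
    (h : Fl G A [I, J]) : φ v [I, J] = gg φ J v - gg φ I v := by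
  have hIJ : I ⊂ J := h.ss (List.mem_singleton.2 rfl)
  have hJ0 : J ≠ ∅ := by
    intro h0
    rw [h0] at hIJ
    exact hIJ.2 (Set.empty_subset _)
  by_cases hI : I = ∅
  · subst hI
    rw [gg_empty, sub_zero, gg_ne φ hJ0]
  · have hfl : Fl G A [∅, I, J] := by
      refine ⟨?_, ?_⟩
      · rw [List.pairwise_cons]
        refine ⟨?_, h.1⟩
        intro K hK
        have hne : K ≠ ∅ := by
          simp only [List.mem_cons, List.not_mem_nil, or_false] at hK
          rcases hK with rfl | rfl
          · exact hI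
          · exact hJ0
        exact Set.empty_ssubset.2 (Set.nonempty_iff_ne_empty.2 hne)
      · intro K hK
        rw [List.mem_cons] at hK
        rcases hK with rfl | hK
        · exact ⟨by simp, Set.empty_subset _⟩
        · exact h.2 K hK
    have h1 := hc v [∅, I, J] hfl rfl
    rw [del_two] at h1
    rw [gg_ne φ hI, gg_ne φ hJ0]
    simp only [del_cons, del_nil, sub_zero] at h1
    have h2 : φ v [I, J] = φ v [∅, J] - φ v [∅, I] := by
      rw [← sub_eq_zero]
      rw [← h1]
      abel
    exact h2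

theorem single_clique (s : Λ) : G.IsClique {s} := by
  rw [SimpleGraph.isClique_iff]
  exact Set.pairwise_singleton _ _

/-- the basic formula -/
theorem gg_step {L : LS G V} {A : Set Λ} {φ : V → List (Set Λ) → F} (hφ : Coch L A 1 φ)
    (hc : Cocy G A 1 φ) {I : Set Λ} (hI : G.IsClique I ∧ I ⊆ A) {s : Λ} (hs : s ∈ I) (v : V) :
    gg φ I (L.τ s v) - gg φ I v = lam L A φ s v := by
  have hsA : s ∈ A := hI.2 hs
  rw [lam_mem L φ hsA]
  by_cases h : I = {s}
  · rw [h]
  · have hss : ({s} : Set Λ) ⊂ I :=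
      ⟨Set.singleton_subset_iff.2 hs, fun h' => h (Set.Subset.antisymm h' (Set.singleton_subset_iff.2 hs))⟩
    have hfl : Fl G A [{s}, I] :=
      fl_two ⟨single_clique s, Set.singleton_subset_iff.2 hsA⟩ hI hss
    have h1 := hφ v {s} [I] hfl rfl s (Set.mem_singleton s)
    rw [phi_eq hc _ hfl, phi_eq hc _ hfl] at h1
    rw [← sub_eq_zero] at h1 ⊢
    rw [← h1]
    abel

theorem lam_inv {L : LS G V} {A : Set Λ} {φ : V → List (Set Λ) → F} (s : Λ) (v : V) :
    lam L A φ s v + lam L A φ s (L.τ s v) = 0 := by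
  by_cases h : s ∈ A
  · rw [lam_mem L φ h, lam_mem L φ h, L.inv]
    abel
  · rw [lam_not L φ h, lam_not L φ h, add_zero]

theorem lam_com {L : LS G V} {A : Set Λ} (hL : ∀ a ∉ A, ∀ v, L.τ a v = v)
    {φ : V → List (Set Λ) → F} (hφ : Coch L A 1 φ) (hc : Cocy G A 1 φ) {s t : Λ} (h : G.Adj s t)
    (v : V) : lam L A φ t v + lam L A φ s (L.τ t v) = lam L A φ s v + lam L A φ t (L.τ s v) := by
  by_cases hs : s ∈ A
  · by_cases ht : t ∈ A
    · have hI : G.IsClique ({s, t} : Set Λ) ∧ ({s, t} : Set Λ) ⊆ A := by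
        refine ⟨?_, ?_⟩
        · rw [SimpleGraph.isClique_iff]
          intro a ha b hb hab
          simp only [Set.mem_insert_iff, Set.mem_singleton_iff] at ha hb
          rcases ha with rfl | rfl <;> rcases hb with rfl | rfl
          · exact absurd rfl hab
          · exact h
          · exact h.symm
          · exact absurd rfl hab
        · intro a ha
          simp only [Set.mem_insert_iff, Set.mem_singleton_iff] at ha
          rcases ha with rfl | rfl
          · exact hs
          · exact ht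
      have e1 := gg_step hφ hc hI (s := t) (by simp) v
      have e2 := gg_step hφ hc hI (s := s) (by simp) (L.τ t v)
      have e3 := gg_step hφ hc hI (s := s) (by simp) v
      have e4 := gg_step hφ hc hI (s := t) (by simp) (L.τ s v)
      rw [← e1, ← e2, ← e3, ← e4, L.com s t h v]
      abel
    · rw [lam_not L φ ht, lam_not L φ ht, hL t ht, zero_add, add_zero]
  · rw [lam_not L φ hs, lam_not L φ hs, hL s hs, zero_add, add_zero]

/-- the extension -/
noncomputable def ext (L : LS G V) (A : Set Λ) (hL : ∀ a ∉ A, ∀ v, L.τ a v = v)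
    (φ : V → List (Set Λ) → F) (hφ : Coch L A 1 φ) (hc : Cocy G A 1 φ) : LS G (V × F) where
  τ s x := (L.τ s x.1, x.2 + lam L A φ s x.1)
  inv s x := by
    refine Prod.ext (L.inv s x.1) ?_
    change x.2 + lam L A φ s x.1 + lam L A φ s (L.τ s x.1) = x.2
    rw [add_assoc, lam_inv, add_zero]
  com s t h x := by
    refine Prod.ext (L.com s t h x.1) ?_
    change x.2 + lam L A φ t x.1 + lam L A φ s (L.τ t x.1) =
      x.2 + lam L A φ s x.1 + lam L A φ t (L.τ s x.1)
    rw [add_assoc, add_assoc, lam_com hL hφ hc h]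

open Classical in
/-- the primitive -/
noncomputable def psi (φ : V → List (Set Λ) → F) (x : V × F) (l : List (Set Λ)) : F :=
  match l with
  | [I] => gg φ I x.1 - x.2
  | _ => 0

end GDOaux

open GDOaux in
theorem gdo_thm : Stmt_GDO := by
  intro Λ G A F _ _ V _ L hL φ hφ hc
  refine ⟨V × F, inferInstance, ext L A hL φ hφ hc, Prod.fst, ?_, ?_, ?_, psi φ, ?_, ?_⟩
  · intro a ha x
    refine Prod.ext (hL a ha x.1) ?_
    change x.2 + lam L A φ a x.1 = x.2
    rw [lam_not L φ ha, add_zero]
  · intro v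
    exact ⟨(v, 0), rfl⟩
  · intro a x
    rfl
  · intro x I l hfl hn s hs
    have hl : l = [] := List.length_eq_zero_iff.1 hn
    subst hl
    change gg φ I (L.τ s x.1) - (x.2 + lam L A φ s x.1) = gg φ I x.1 - x.2
    have hI := hfl.2 I List.mem_cons_self
    have h1 := gg_step hφ hc hI hs x.1
    rw [← h1]
    abel
  · intro x l hfl hn
    match l, hn with
    | [I, J], _ =>
      rw [del_two]
      simp only [del_nil, add_zero]
      change φ x.1 [I, J] = (gg φ J x.1 - x.2) - (gg φ I x.1 - x.2)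
      rw [phi_eq hc x.1 hfl]
      abel

end Pool.CS
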