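import Pool.Agent.Work.MP_64ea0f_cs.InterfaceF

set_option autoImplicit false

/-! # Block NFC (helper4) -/

namespace Pool.CS

namespace NFCaux

variable (D : Rd)

lemma B_e (u : D.V) (t : D.S) : D.B u (D.e t) = ∑ r, u r * D.k r t := by
  classical
  unfold Rd.B bform Rd.e
  refine Finset.sum_congr rfl fun r _ => ?_
  rw [Finset.sum_eq_single t]
  · simp
  · intro b _ hb
    simp [Pi.single_eq_of_ne hb]
  · intro h
    exact absurd (Finset.mem_univ t) h

open Classical in
/-- restriction of a vector to `J` -/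
noncomputable def res (J : Set D.S) (v : D.V) : D.V := fun s => if s ∈ J then v s else 0

variable {D}

lemma res_mem {J : Set D.S} {v : D.V} {s : D.S} (h : s ∈ J) : res D J v s = v s := if_pos h

lemma res_not {J : Set D.S} {v : D.V} {s : D.S} (h : s ∉ J) : res D J v s = 0 := if_neg h

lemma res_nonneg {J : Set D.S} {v : D.V} (hv : ∀ t, 0 ≤ v t) (s : D.S) : 0 ≤ res D J v s := by
  by_cases h : s ∈ J
  · rw [res_mem h]; exact hv s
  · rw [res_not h]

lemma res_ge {J : Set D.S} {v : D.V} (hv : ∀ t, 0 ≤ v t) {s : D.S} (hs : s ∈ J) :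
    D.B v (D.e s) ≤ D.B (res D J v) (D.e s) := by
  rw [B_e, B_e]
  refine Finset.sum_le_sum fun r _ => ?_
  by_cases h : r ∈ J
  · rw [res_mem h]
  · rw [res_not h, zero_mul]
    have hrs : r ≠ s := fun h' => h (h' ▸ hs)
    exact mul_nonpos_of_nonneg_of_nonpos (hv r) (D.off r s hrs)

lemma pos_case (hBAS : Stmt_BAS) (hCMP : Stmt_CMP) (hPFF : Stmt_PFF) (hAF : D.AF) (J : Set D.S)
    (hJ : D.NoFin J) (β : D.V) (hβ : ∀ t, 0 ≤ β t) (h0 : ∀ s ∈ J, D.B β (D.e s) = 0) :
    D.In (D.perp J) β := by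
  have hz : ∀ s ∈ J, β s = 0 := by
    intro s0 hs0
    by_contra hne
    obtain ⟨K, hKJ, hs0K, hconn, hsep⟩ := hCMP D J s0 hs0
    have hge : ∀ t ∈ K, 0 ≤ D.B (res D K β) (D.e t) := by
      intro t ht
      have := res_ge (J := K) hβ ht
      rw [h0 t (hKJ ht)] at this
      exact this
    have hIn : D.In K (res D K β) := fun s hs => res_not hs
    by_cases hp : ∃ t ∈ K, 0 < D.B (res D K β) (D.e t)
    · exact hJ K hKJ ⟨s0, hs0K⟩ hsep
        (hPFF D K hconn ⟨res D K β, res_nonneg hβ, hIn, hge, hp⟩)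
    · push Not at hp
      have he : ∀ t ∈ K, D.B (res D K β) (D.e t) = 0 := fun t ht => le_antisymm (hp t ht) (hge t ht)
      have hKc : res D K β ∈ D.Kc := by
        refine ⟨res_nonneg hβ, fun s => ?_⟩
        by_cases hs : s ∈ K
        · exact (he s hs).le
        · rw [B_e]
          refine Finset.sum_nonpos fun r _ => ?_
          by_cases h : r ∈ K
          · have hrs : r ≠ s := fun h' => hs (h' ▸ h)
            exact mul_nonpos_of_nonneg_of_nonpos (res_nonneg hβ r) (D.off r s hrs)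
          · rw [res_not h, zero_mul]
      have hiso : D.B (res D K β) (res D K β) = 0 := by
        rw [(hBAS D).2.2.2.1]
        refine Finset.sum_eq_zero fun s _ => ?_
        by_cases hs : s ∈ K
        · rw [he s hs, mul_zero]
        · rw [res_not hs, zero_mul]
      have := hAF _ hKc hiso
      apply hne
      rw [← res_mem (v := β) hs0K, this]
      rfl
  intro r hr
  by_contra hne
  apply hr
  intro t ht
  have hsum := h0 t ht
  rw [B_e] at hsum
  have hle : ∀ i ∈ (Finset.univ : Finset D.S), β i * D.k i t ≤ 0 := by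
    intro i _
    by_cases hi : i = t
    · rw [hi, hz t ht, zero_mul]
    · exact mul_nonpos_of_nonneg_of_nonpos (hβ i) (D.off i t hi)
  have := (Finset.sum_eq_zero_iff_of_nonpos hle).1 hsum r (Finset.mem_univ r)
  rcases mul_eq_zero.1 this with h | h
  · exact absurd h hne
  · exact h

end NFCaux

open NFCaux in
theorem nfc_thm (hBAS : Stmt_BAS) (hSGN : Stmt_SGN) (hCMP : Stmt_CMP) (hPFF : Stmt_PFF) :
    Stmt_NFC := by
  intro D hAF J hJ β hβ h0
  rcases (hSGN D).1 β hβ with h | h
  · exact pos_case hBAS hCMP hPFF hAF J hJ β h.2 h0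
  · have h1 : ∀ s ∈ J, D.B (-β) (D.e s) = 0 := by
      intro s hs
      have := h0 s hs
      rw [B_e] at this ⊢
      simp only [Pi.neg_apply, neg_mul, Finset.sum_neg_distrib]
      rw [this, neg_zero]
    have h2 := pos_case hBAS hCMP hPFF hAF J hJ (-β) h.2 h1
    intro s hs
    have h3 := h2 s hs
    rw [Pi.neg_apply, neg_eq_zero] at h3
    exact h3

end Pool.CS
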